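import Mathlib

/-!
Heights: lemmas.
-/

universe u

namespace Pool.Agent.Lib.MP_17a322_nt.BL

open NumberField Height

section

variable {K : Type u} [Field K] [NumberField K] {I : Type} [Fintype I]

omit [Field K] [NumberField K] [Fintype I] in
private theorem h2_nn (v : K → ℝ) (hv : ∀ x, 0 ≤ v x) (x : I → K) : 0 ≤ ⨆ i, v (x i) :=
  Real.iSup_nonneg fun i => hv (x i)

private theorem h2_fs {x : I → K} (hx : x ≠ 0) :
    (fun v : FinitePlace K => ⨆ i, v (x i)).HasFiniteMulSupport := by
  obtain ⟨i₀, hi₀⟩ := Function.ne_iff.1 hx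
  have hne : Nonempty I := ⟨i₀⟩
  refine (Set.finite_iUnion (f := fun i : {i // x i ≠ 0} =>
    Function.mulSupport fun w : FinitePlace K => w (x i.1))
    fun i => FinitePlace.hasFiniteMulSupport i.2).subset fun w hw => ?_
  by_contra hc
  simp only [Set.mem_iUnion, Function.mem_mulSupport, not_exists, not_not] at hc
  refine hw ?_
  refine le_antisymm (ciSup_le fun i => ?_) ?_
  · by_cases h : x i = 0
    · rw [h, map_zero]
      exact zero_le_one
    · exact (hc ⟨i, h⟩).le
  · rw [← hc ⟨i₀, hi₀⟩]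
    exact Finite.le_ciSup (fun i => w (x i)) i₀

/-- Monotonicity of the multiplicative height. -/
private theorem h2_mono {I' : Type} [Fintype I'] {f : I → K} {g : I' → K} (hf : f ≠ 0) (hg : g ≠ 0)
    (h₁ : ∀ v : InfinitePlace K, ⨆ j, v (g j) ≤ ⨆ i, v (f i))
    (h₂ : ∀ v : FinitePlace K, ⨆ j, v (g j) ≤ ⨆ i, v (f i)) : mulHeight g ≤ mulHeight f := by
  rw [NumberField.mulHeight_eq hf, NumberField.mulHeight_eq hg]
  refine mul_le_mul ?_ ?_ ?_ ?_
  · exact Finset.prod_le_prod (fun v _ => pow_nonneg (h2_nn _ (fun x => apply_nonneg v x) g) _)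
      fun v _ => pow_le_pow_left₀ (h2_nn _ (fun x => apply_nonneg v x) g) (h₁ v) _
  · exact finprod_le_finprod (h2_fs hg) (fun v => h2_nn _ (fun x => apply_nonneg v x) g) (h2_fs hf) h₂
  · exact finprod_nonneg fun v => h2_nn _ (fun x => apply_nonneg v x) g
  · exact Finset.prod_nonneg fun v _ => pow_nonneg (h2_nn _ (fun x => apply_nonneg v x) f) _

private theorem h2_le {x : I → K} (hx : x ≠ 0) {T : ℝ} (hT : 0 ≤ T)
    (h₁ : ∀ v : InfinitePlace K, ⨆ i, v (x i) ≤ T) (h₂ : ∀ v : FinitePlace K, ⨆ i, v (x i) ≤ 1) :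
    mulHeight x ≤ T ^ Module.finrank ℚ K := by
  rw [NumberField.mulHeight_eq hx, ← InfinitePlace.sum_mult_eq, ← Finset.prod_pow_eq_pow_sum]
  refine (mul_le_mul (b := ∏ v : InfinitePlace K, T ^ v.mult) (d := 1) ?_ ?_ ?_ ?_).trans (mul_one _).le
  · exact Finset.prod_le_prod (fun v _ => pow_nonneg (h2_nn _ (fun x => apply_nonneg v x) x) _)
      fun v _ => pow_le_pow_left₀ (h2_nn _ (fun x => apply_nonneg v x) x) (h₁ v) _
  · refine (finprod_le_finprod (h2_fs hx) (fun v => h2_nn _ (fun x => apply_nonneg v x) x)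
      (g := fun _ => (1 : ℝ)) ?_ h₂).trans ?_
    · simp [Function.HasFiniteMulSupport]
    · simp
  · exact finprod_nonneg fun v => h2_nn _ (fun x => apply_nonneg v x) x
  · exact Finset.prod_nonneg fun v _ => pow_nonneg hT _

omit [Fintype I] in
private theorem h2_ge {x : I → K} (hx : x ≠ 0) {T : ℝ} (hT : 0 ≤ T)
    (h₁ : ∀ v : InfinitePlace K, T ≤ ⨆ i, v (x i)) (h₂ : ∀ v : FinitePlace K, 1 ≤ ⨆ i, v (x i)) :
    T ^ Module.finrank ℚ K ≤ mulHeight x := by
  rw [NumberField.mulHeight_eq hx, ← InfinitePlace.sum_mult_eq, ← Finset.prod_pow_eq_pow_sum]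
  refine (mul_one _).ge.trans (mul_le_mul (a := ∏ v : InfinitePlace K, T ^ v.mult) (c := 1) ?_ ?_ zero_le_one ?_)
  · exact Finset.prod_le_prod (fun v _ => pow_nonneg hT _) fun v _ => pow_le_pow_left₀ hT (h₁ v) _
  · exact one_le_finprod h₂
  · exact Finset.prod_nonneg fun v _ => pow_nonneg (h2_nn _ (fun x => apply_nonneg v x) x) _

private theorem h2_int (v : FinitePlace K) {x : K} (hx : IsIntegral ℤ x) : v x ≤ 1 := by
  obtain ⟨y, rfl⟩ : ∃ y : 𝓞 K, (y : K) = x := ⟨⟨x, hx⟩, rfl⟩
  rw [← FinitePlace.norm_embedding_eq v]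
  exact FinitePlace.norm_le_one K v.maximalIdeal y

private theorem h2_house (v : InfinitePlace K) (x : K) : v x ≤ house x := by
  rw [← InfinitePlace.norm_embedding_eq]
  exact norm_embedding_le_house x _

private theorem h2_log {a b : ℝ} (n : ℕ) (ha : 0 < a) (h : a ^ n ≤ b) : n * Real.log a ≤ Real.log b := by
  rw [← Real.log_pow]
  exact Real.log_le_log (pow_pos ha n) h

end

/-- The height of a family of algebraic integers with bounded houses. -/
theorem lh_le {K : Type u} [Field K] [NumberField K] {I : Type} [Fintype I] (z : I → K) (hz : ∀ i, IsIntegral ℤ (z i))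
    (T : ℝ) (hT : 1 ≤ T) (h : ∀ i, house (z i) ≤ T) : logHeight z ≤ Module.finrank ℚ K * Real.log T := by
  by_cases h0 : z = 0
  · rw [h0, logHeight_zero]
    exact mul_nonneg (Nat.cast_nonneg _) (Real.log_nonneg hT)
  · obtain ⟨i₀, _⟩ := Function.ne_iff.1 h0
    have hne : Nonempty I := ⟨i₀⟩
    have h1 : mulHeight z ≤ T ^ Module.finrank ℚ K :=
      h2_le h0 (by linarith) (fun v => ciSup_le fun i => (h2_house v _).trans (h i))
        fun v => ciSup_le fun i => h2_int v (hz i)
    rw [logHeight_eq_log_mulHeight, ← Real.log_pow]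
    exact Real.log_le_log (mulHeight_pos _) h1

/-- The height of a family with the entries `1` and `u`. -/
theorem lh_ge {K : Type u} [Field K] [NumberField K] {I : Type} [Fintype I] (z : I → K) (i j : I) (u : ℕ) (hu : 1 ≤ u)
    (hi : z i = 1) (hj : z j = u) : Module.finrank ℚ K * Real.log u ≤ logHeight z := by
  have h0 : z ≠ 0 := fun h => by
    rw [h] at hi
    exact zero_ne_one hi
  have hu' : (0 : ℝ) < u := by exact_mod_cast hu
  refine h2_log _ hu' (h2_ge h0 hu'.le (fun v => ?_) fun v => ?_)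
  · refine le_trans ?_ (Finite.le_ciSup (fun i => v (z i)) j)
    simp only [hj, InfinitePlace.map_natCast]
    exact le_rfl
  · refine le_trans ?_ (Finite.le_ciSup (fun i => v (z i)) i)
    simp only [hi, map_one]
    exact le_rfl

/-- The height of a family of natural numbers, two of which have a small difference. -/
theorem lh_nat {K : Type u} [Field K] [NumberField K] {I : Type} [Fintype I] (k : I → ℕ) (c : K) (hc : c ≠ 0) (i j : I)
    (R : ℕ) (hk : k i < k j) (hR : k j ≤ k i + R) :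
    Module.finrank ℚ K * (Real.log (k j) - Real.log R) ≤ logHeight fun i => c * (k i : K) := by
  set m : K := (k j : K) - (k i : K) with hm
  have hm' : m = ((k j - k i : ℕ) : K) := by
    rw [Nat.cast_sub hk.le]
  have hm0 : m ≠ 0 := by
    rw [hm']
    exact Nat.cast_ne_zero.2 (by omega)
  have hkj : (0 : ℝ) < k j := by exact_mod_cast (by omega : 0 < k j)
  have hR0 : (0 : ℝ) < R := by exact_mod_cast (by omega : 0 < R)
  have e : logHeight (fun i => c * (k i : K)) = logHeight (fun i => m⁻¹ * (k i : K)) := by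
    have e1 := logHeight_smul_eq_logHeight (fun i => (k i : K)) hc
    have e2 := logHeight_smul_eq_logHeight (fun i => (k i : K)) (inv_ne_zero hm0)
    exact e1.trans e2.symm
  rw [e, ← Real.log_div hkj.ne' hR0.ne']
  have h0 : (fun i => m⁻¹ * (k i : K)) ≠ 0 := fun h => by
    have := congrFun h j
    simp only [Pi.zero_apply, mul_eq_zero, inv_eq_zero, hm0, false_or, Nat.cast_eq_zero] at this
    omega
  refine h2_log _ (div_pos hkj hR0) (h2_ge h0 (div_pos hkj hR0).le (fun v => ?_) fun v => ?_)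
  · refine le_trans ?_ (Finite.le_ciSup (fun i => v (m⁻¹ * (k i : K))) j)
    simp only [map_mul, map_inv₀, hm', InfinitePlace.map_natCast]
    rw [div_eq_inv_mul]
    refine mul_le_mul_of_nonneg_right ?_ hkj.le
    refine inv_anti₀ ?_ ?_
    · exact_mod_cast (by omega : 0 < k j - k i)
    · exact_mod_cast (by omega : k j - k i ≤ R)
  · have h1 : v (m⁻¹ * (k j : K) - m⁻¹ * (k i : K)) = 1 := by
      rw [← mul_sub, ← hm, inv_mul_cancel₀ hm0, map_one]
    have h2 : v (m⁻¹ * (k j : K) + -(m⁻¹ * (k i : K))) ≤ max (v (m⁻¹ * (k j : K))) (v (-(m⁻¹ * (k i : K)))) :=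
      FinitePlace.add_le v _ _
    rw [← sub_eq_add_neg, h1] at h2
    have h3 : v (-(m⁻¹ * (k i : K))) = v (m⁻¹ * (k i : K)) := by
      rw [FinitePlace.coe_apply, FinitePlace.coe_apply]
      exact AbsoluteValue.map_neg _ _
    rw [h3] at h2
    rcases le_max_iff.1 h2 with h | h
    · exact h.trans (Finite.le_ciSup (fun i => v (m⁻¹ * (k i : K))) j)
    · exact h.trans (Finite.le_ciSup (fun i => v (m⁻¹ * (k i : K))) i)

/-- A family which dominates another one at all places has the larger height. -/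
theorem lh_dom {K : Type u} [Field K] [NumberField K] {I I' : Type} [Fintype I] [Fintype I'] (f : I → K) (g : I' → K)
    (c : K) (hc : c ≠ 0) (hg : g ≠ 0) (h₁ : ∀ (v : InfinitePlace K) j, ∃ i, v (c * g j) ≤ v (f i))
    (h₂ : ∀ (v : FinitePlace K) j, ∃ i, v (c * g j) ≤ v (f i)) : logHeight g ≤ logHeight f := by
  obtain ⟨j₀, hj₀⟩ := Function.ne_iff.1 hg
  have hne : Nonempty I' := ⟨j₀⟩
  have hcg : c • g ≠ 0 := fun h => by
    have := congrFun h j₀
    simp only [Pi.smul_apply, smul_eq_mul, Pi.zero_apply, mul_eq_zero, hc, false_or] at this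
    exact hj₀ this
  have hf : f ≠ 0 := fun h => by
    obtain ⟨i, hi⟩ := h₁ Classical.ofNonempty j₀
    rw [h, Pi.zero_apply, map_zero] at hi
    have h0 : (Classical.ofNonempty : InfinitePlace K) (c * g j₀) = 0 := le_antisymm hi (apply_nonneg _ _)
    rw [map_eq_zero, mul_eq_zero] at h0
    rcases h0 with h0 | h0
    · exact hc h0
    · exact hj₀ h0
  rw [← logHeight_smul_eq_logHeight g hc, logHeight_eq_log_mulHeight, logHeight_eq_log_mulHeight]
  refine Real.log_le_log (mulHeight_pos _) (h2_mono hf hcg (fun v => ciSup_le fun j => ?_) fun v => ciSup_le fun j => ?_)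
  · obtain ⟨i, hi⟩ := h₁ v j
    exact hi.trans (Finite.le_ciSup (fun i => v (f i)) i)
  · obtain ⟨i, hi⟩ := h₂ v j
    exact hi.trans (Finite.le_ciSup (fun i => v (f i)) i)

end Pool.Agent.Lib.MP_17a322_nt.BL
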